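import Mathlib
import Pool.Agent.Q153.Braid

/-!
# Braid graphs are median in every simply-laced Coxeter system

The left inversions of a reduced word are tokens; a braid move at a window interchanges the first
and the third token of the window.  The displacement of the tokens embeds the braid graph
isometrically into `ℓ₁`, and the graph satisfies the quadrangle condition.
-/

set_option autoImplicit false

namespace Pool.Agent.Results.MP_e319d1_co.Median

open Pool.Agent.Q153.Braid

/-- `m` lies on a shortest path between `u` and `v`. -/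
def OnShortestPath {V : Type*} (G : SimpleGraph V) (u v m : V) : Prop :=
  ∃ p : G.Walk u v, p.length = G.dist u v ∧ m ∈ p.support

/-- `G` is a median graph. -/
def IsMedian {V : Type*} (G : SimpleGraph V) : Prop :=
  G.Connected ∧ ∀ u v w : V, ∃! m : V,
    OnShortestPath G u v m ∧ OnShortestPath G v w m ∧ OnShortestPath G u w m

theorem onShortestPath_iff {V : Type*} {G : SimpleGraph V} (hG : G.Connected) (u v m : V) :
    OnShortestPath G u v m ↔ G.dist u m + G.dist m v = G.dist u v := by
  classical
  constructor
  · rintro ⟨p, hp, hm⟩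
    have h1 := SimpleGraph.dist_le (p.takeUntil m hm)
    have h2 := SimpleGraph.dist_le (p.dropUntil m hm)
    have h3 : (p.takeUntil m hm).length + (p.dropUntil m hm).length = p.length := by
      rw [← SimpleGraph.Walk.length_append, SimpleGraph.Walk.take_spec]
    have h4 := hG.dist_triangle (u := u) (v := m) (w := v)
    omega
  · intro h
    obtain ⟨p, hp⟩ := hG.exists_walk_length_eq_dist u m
    obtain ⟨q, hq⟩ := hG.exists_walk_length_eq_dist m v
    exact ⟨p.append q, by rw [SimpleGraph.Walk.length_append, hp, hq, h], by
      rw [SimpleGraph.Walk.mem_support_append_iff]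
      exact Or.inl p.end_mem_support⟩

/-- Pushing a descent towards the beginning of a geodesic. -/
theorem push_descent {V : Type*} {G : SimpleGraph V} (hG : G.Connected) (u : V)
    (hpar : ∀ a b, G.Adj a b → G.dist a u ≠ G.dist b u)
    (hQC : ∀ z v w, G.Adj z v → G.Adj z w → v ≠ w → G.dist v u + 1 = G.dist z u →
      G.dist w u + 1 = G.dist z u → ∃ x, G.Adj v x ∧ G.Adj w x ∧ G.dist x u + 2 = G.dist z u)
    (m : V) (n : ℕ) : ∀ z, G.dist m z = n → G.dist z u < G.dist m u + n →
      ∃ m', G.Adj m m' ∧ G.dist m' z + 1 = n ∧ G.dist m' u + 1 = G.dist m u := by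
  have hstep : ∀ a b, G.Adj a b → G.dist b u + 1 = G.dist a u ∨ G.dist a u + 1 = G.dist b u := by
    intro a b hab
    have h1 := hpar a b hab
    have h2 := hG.dist_triangle (u := a) (v := b) (w := u)
    have h3 := hG.dist_triangle (u := b) (v := a) (w := u)
    have h4 : G.dist a b = 1 := SimpleGraph.dist_eq_one_iff_adj.mpr hab
    have h5 : G.dist b a = 1 := SimpleGraph.dist_eq_one_iff_adj.mpr hab.symm
    omega
  -- predecessor on a geodesic
  have hpred : ∀ k z, G.dist m z = k + 1 → ∃ z', G.Adj z z' ∧ G.dist m z' = k := by
    intro k z hz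
    obtain ⟨p, hp⟩ := hG.exists_walk_length_eq_dist z m
    cases p with
    | nil => simp at hz
    | @cons _ z' _ hzz p =>
      refine ⟨z', hzz, ?_⟩
      rw [SimpleGraph.Walk.length_cons, SimpleGraph.dist_comm, hz] at hp
      have h1 := SimpleGraph.dist_le p
      rw [SimpleGraph.dist_comm] at h1
      have h2 := hG.dist_triangle (u := m) (v := z') (w := z)
      have h3 : G.dist z' z = 1 := SimpleGraph.dist_eq_one_iff_adj.mpr hzz.symm
      omega
  induction n with
  | zero =>
    intro z hz hlt
    have : m = z := hG.dist_eq_zero_iff.mp hz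
    subst this
    omega
  | succ n ih =>
    intro z hz hlt
    obtain ⟨z', hzz, hz'⟩ := hpred n z hz
    have hz'z : G.dist z' z = 1 := SimpleGraph.dist_eq_one_iff_adj.mpr hzz.symm
    by_cases hlt' : G.dist z' u < G.dist m u + n
    · obtain ⟨m', h1, h2, h3⟩ := ih z' hz' hlt'
      refine ⟨m', h1, ?_, h3⟩
      have h4 := hG.dist_triangle (u := m') (v := z') (w := z)
      have h5 := hG.dist_triangle (u := m) (v := m') (w := z)
      have h6 : G.dist m m' = 1 := SimpleGraph.dist_eq_one_iff_adj.mpr h1
      omega
    · have hge := hG.dist_triangle (u := z') (v := m) (w := u)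
      rw [SimpleGraph.dist_comm (u := z') (v := m), hz'] at hge
      have hz'u : G.dist z' u = G.dist m u + n := by omega
      cases n with
      | zero =>
        have : m = z' := hG.dist_eq_zero_iff.mp hz'
        subst this
        refine ⟨z, hzz.symm, by simp, ?_⟩
        rcases hstep z m hzz with h | h
        · omega
        · omega
      | succ n =>
        obtain ⟨z'', hzz', hz''⟩ := hpred n z' hz'
        have h1 := hG.dist_triangle (u := z'') (v := m) (w := u)
        rw [SimpleGraph.dist_comm (u := z'') (v := m), hz''] at h1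
        have h2 : G.dist z'' u + 1 = G.dist z' u := by
          rcases hstep z' z'' hzz' with h | h <;> omega
        have h3 : G.dist z u + 1 = G.dist z' u := by
          rcases hstep z z' hzz with h | h <;> omega
        have hne : z ≠ z'' := by
          rintro rfl
          omega
        obtain ⟨x, hx1, hx2, hx3⟩ := hQC z' z z'' hzz.symm hzz' hne h3 h2
        have h4 := hG.dist_triangle (u := m) (v := z'') (w := x)
        have h5 : G.dist z'' x = 1 := SimpleGraph.dist_eq_one_iff_adj.mpr hx2
        have h6 := hG.dist_triangle (u := m) (v := x) (w := z)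
        have h7 : G.dist x z = 1 := SimpleGraph.dist_eq_one_iff_adj.mpr hx1.symm
        obtain ⟨m', k1, k2, k3⟩ := ih x (by omega) (by omega)
        refine ⟨m', k1, ?_, k3⟩
        have h8 := hG.dist_triangle (u := m') (v := x) (w := z)
        have h9 := hG.dist_triangle (u := m) (v := m') (w := z)
        have h10 : G.dist m m' = 1 := SimpleGraph.dist_eq_one_iff_adj.mpr k1
        omega

/-- A connected graph with a scale embedding into `ℓ₁`, bipartite and satisfying the quadrangle
condition is median. -/
theorem isMedian_of_embedding {V T : Type*} {G : SimpleGraph V} (hG : G.Connected)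
    (S : Finset T) (P : V → T → ℤ)
    (hD : ∀ u v, 4 * (G.dist u v : ℤ) = ∑ t ∈ S, |P u t - P v t|)
    (hpar : ∀ u a b, G.Adj a b → G.dist a u ≠ G.dist b u)
    (hQC : ∀ u z v w, G.Adj z v → G.Adj z w → v ≠ w → G.dist v u + 1 = G.dist z u →
      G.dist w u + 1 = G.dist z u → ∃ x, G.Adj v x ∧ G.Adj w x ∧ G.dist x u + 2 = G.dist z u) :
    IsMedian G := by
  refine ⟨hG, fun u v w => ?_⟩
  simp only [onShortestPath_iff hG]
  apply existsUnique_of_exists_of_unique
  · -- existence
    classical
    have hex : ∃ d, ∃ m, G.dist v m + G.dist m w = G.dist v w ∧ G.dist m u = d :=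
      ⟨_, v, by simp, rfl⟩
    obtain ⟨m, hm, hmu⟩ := Nat.find_spec hex
    have hmin : ∀ m', G.dist v m' + G.dist m' w = G.dist v w → G.dist m u ≤ G.dist m' u := by
      intro m' hm'
      rw [hmu]
      exact Nat.find_min' hex ⟨m', hm', rfl⟩
    have key : ∀ z y, G.dist m z + G.dist m y = G.dist z y →
        (∀ m', G.dist m' z + G.dist m' y = G.dist z y → G.dist m u ≤ G.dist m' u) →
        G.dist z u = G.dist m u + G.dist m z := by
      intro z y hzy hmin'
      by_contra hcon
      have h1 := hG.dist_triangle (u := z) (v := m) (w := u)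
      rw [SimpleGraph.dist_comm (u := z) (v := m)] at h1
      obtain ⟨m', k1, k2, k3⟩ := push_descent hG u (hpar u) (hQC u) m (G.dist m z) z rfl
        (by omega)
      have h2 := hG.dist_triangle (u := z) (v := m') (w := y)
      rw [SimpleGraph.dist_comm (u := z) (v := m')] at h2
      have h3 := hG.dist_triangle (u := m') (v := m) (w := y)
      have h4 : G.dist m' m = 1 := SimpleGraph.dist_eq_one_iff_adj.mpr k1.symm
      have h5 := hmin' m' (by omega)
      omega
    refine ⟨m, ?_, hm, ?_⟩
    · have := key v w (by rw [SimpleGraph.dist_comm (u := m) (v := v)]; exact hm) (by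
        intro m' hm'
        apply hmin
        rw [SimpleGraph.dist_comm (u := v) (v := m')]
        exact hm')
      rw [SimpleGraph.dist_comm (u := u) (v := m), SimpleGraph.dist_comm (u := u) (v := v)]
      omega
    · have := key w v (by
        rw [SimpleGraph.dist_comm (u := m) (v := v), SimpleGraph.dist_comm (u := w) (v := v)]
        omega) (by
        intro m' hm'
        apply hmin
        rw [SimpleGraph.dist_comm (u := v) (v := m'), SimpleGraph.dist_comm (u := v) (v := w)]
        omega)
      rw [SimpleGraph.dist_comm (u := u) (v := m), SimpleGraph.dist_comm (u := u) (v := w)]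
      omega
  · -- uniqueness
    have hbet : ∀ a b m, G.dist a m + G.dist m b = G.dist a b →
        ∀ t ∈ S, |P a t - P m t| + |P m t - P b t| = |P a t - P b t| := by
      intro a b m h
      have h1 : ∑ t ∈ S, |P a t - P b t| = ∑ t ∈ S, (|P a t - P m t| + |P m t - P b t|) := by
        rw [Finset.sum_add_distrib, ← hD, ← hD, ← hD, ← h]
        push_cast
        ring
      have h2 := (Finset.sum_eq_sum_iff_of_le (s := S)
        (fun t _ => abs_sub_le (P a t) (P m t) (P b t))).mp h1
      exact fun t ht => (h2 t ht).symm
    rintro m m' ⟨h1, h2, h3⟩ ⟨h1', h2', h3'⟩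
    have hP : ∀ t ∈ S, P m t = P m' t := by
      intro t ht
      have e1 := hbet u v m h1 t ht
      have e2 := hbet v w m h2 t ht
      have e3 := hbet u w m h3 t ht
      have e1' := hbet u v m' h1' t ht
      have e2' := hbet v w m' h2' t ht
      have e3' := hbet u w m' h3' t ht
      simp only [abs_eq_max_neg] at e1 e2 e3 e1' e2' e3'
      omega
    have h0 := hD m m'
    have h00 : ∑ t ∈ S, |P m t - P m' t| = 0 :=
      Finset.sum_eq_zero fun t ht => by rw [hP t ht]; simp
    rw [h00] at h0
    exact hG.dist_eq_zero_iff.mp (by exact_mod_cast (by linarith : (G.dist m m' : ℤ) = 0))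

theorem braidGraph_isMedian {B W : Type*} [Group W] {M : CoxeterMatrix B}
    (cs : CoxeterSystem M W) (a : List B) (ha : cs.IsReduced a) : IsMedian (braidGraph M a) := by
  classical
  set S : Finset W := (cs.leftInvSeq a).toFinset with hSdef
  have hS : ∀ t, t ∈ S ↔ t ∈ cs.leftInvSeq a := fun t => List.mem_toFinset
  have hD := four_dist cs ha hS
  have hred : ∀ g : braidClass M a, cs.IsReduced g.1 := fun g => isReduced_of_mem cs ha g.2
  have hSg : ∀ g : braidClass M a, ∀ t, t ∈ S ↔ t ∈ cs.leftInvSeq g.1 :=
    fun g t => by rw [hS, mem_iff cs ha g.2]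
  have hconn : ∀ g y : braidClass M a, Relation.ReflTransGen (Move M) g.1 y.1 :=
    fun g y => (conn_symm g.2).trans y.2
  refine isMedian_of_embedding (braidGraph_connected M a) S
    (fun g t => (pos cs g.1 t : ℤ)) hD ?_ ?_
  · intro u x y hxy
    have h1 := hD x u
    have h2 := hD y u
    rcases down_or_down cs (hred u) (hSg u) (hconn u x) hxy with h | h
    · have := h.2.2
      omega
    · have := h.2.2
      omega
  · intro u z v w hzv hzw hvw hv hw
    have h1 := hD z u
    have h2 := hD v u
    have h3 := hD w u
    have d1 : Down cs S u.1 z.1 v.1 := ⟨hconn u z, hzv, by omega⟩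
    have d2 : Down cs S u.1 z.1 w.1 := ⟨hconn u z, hzw, by omega⟩
    obtain ⟨x, e1, e2⟩ := diamond cs (hred u) (hSg u) d1 d2 (fun h => hvw (Subtype.ext h))
    have hx : x ∈ braidClass M a := Relation.ReflTransGen.tail v.2 e1.2.1
    refine ⟨⟨x, hx⟩, e1.2.1, e2.2.1, ?_⟩
    have h4 := hD ⟨x, hx⟩ u
    have h5 := e1.2.2
    have h6 : disp cs S (⟨x, hx⟩ : braidClass M a).1 u.1 = disp cs S x u.1 := rfl
    omega

/-- **Q1 holds.**  For every simply-laced Coxeter system and every reduced expression `a` the
braid graph of `a` is a median graph. -/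
theorem result {B W : Type*} [Group W] {M : CoxeterMatrix B} (cs : CoxeterSystem M W)
    (_hM : SimplyLaced M) (a : List B) (ha : cs.IsReduced a) : IsMedian (braidGraph M a) :=
  braidGraph_isMedian cs a ha

end Pool.Agent.Results.MP_e319d1_co.Median
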